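import Pool.Agent.helper80.EN.Spec5

set_option autoImplicit false

namespace Pool.Agent.helper80.EN

open Subgroup

universe u

theorem GLR_map_injective {R : Type u} [CommRing R] (n : ℕ) (R0 : Subalgebra ℤ R) :
    Function.Injective (Matrix.GeneralLinearGroup.map (n := Fin n) (R0.val : R0 →+* R)) := by
  intro x y hxy
  apply Units.ext
  ext i j
  have h1 := congrArg (fun g : GL (Fin n) R => (g : Matrix (Fin n) (Fin n) R) i j) hxy
  simpa using h1

theorem GLR_mem {R : Type u} [CommRing R] (n : ℕ) (R0 : Subalgebra ℤ R) (g : GL (Fin n) R)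
    (h1 : ∀ i j, (g : Matrix (Fin n) (Fin n) R) i j ∈ R0)
    (h2 : ∀ i j, ((g⁻¹ : GL (Fin n) R) : Matrix (Fin n) (Fin n) R) i j ∈ R0) :
    g ∈ (Matrix.GeneralLinearGroup.map (n := Fin n) (R0.val : R0 →+* R)).range := by
  let A : Matrix (Fin n) (Fin n) R0 := fun i j => ⟨(g : Matrix (Fin n) (Fin n) R) i j, h1 i j⟩
  let B : Matrix (Fin n) (Fin n) R0 :=
    fun i j => ⟨((g⁻¹ : GL (Fin n) R) : Matrix (Fin n) (Fin n) R) i j, h2 i j⟩
  have hinj : Function.Injective ((R0.val : R0 →+* R).mapMatrix (m := Fin n)) := by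
    intro x y hxy
    ext i j
    have := congrFun (congrFun hxy i) j
    simpa using this
  have hA : (R0.val : R0 →+* R).mapMatrix A = (g : Matrix (Fin n) (Fin n) R) := by
    ext i j; rfl
  have hB : (R0.val : R0 →+* R).mapMatrix B = ((g⁻¹ : GL (Fin n) R) : Matrix (Fin n) (Fin n) R) := by
    ext i j; rfl
  have hAB : A * B = 1 := by
    apply hinj
    rw [map_mul, hA, hB, map_one]
    exact g.mul_inv
  have hBA : B * A = 1 := by
    apply hinj
    rw [map_mul, hA, hB, map_one]
    exact g.inv_mul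
  refine ⟨⟨A, B, hAB, hBA⟩, ?_⟩
  apply Units.ext
  ext i j
  rfl

theorem GLR (h : GLN_stmt.{u}) : GLR_stmt.{u} := by
  classical
  intro R _ n
  let E : Finset (GL (Fin n) R) → Finset R := fun s =>
    s.biUnion fun g => (Finset.univ.image fun p : Fin n × Fin n =>
      (g : Matrix (Fin n) (Fin n) R) p.1 p.2) ∪ (Finset.univ.image fun p : Fin n × Fin n =>
      ((g⁻¹ : GL (Fin n) R) : Matrix (Fin n) (Fin n) R) p.1 p.2)
  let R0 : Finset (GL (Fin n) R) → Subalgebra ℤ R := fun s => Algebra.adjoin ℤ (E s : Set R)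
  have hN : ∀ s, IsNoetherianRing (R0 s) := by
    intro s
    have h1 : (R0 s).FG := Subalgebra.fg_adjoin_finset (E s)
    have h2 : Algebra.FiniteType ℤ (R0 s) := (R0 s).fg_iff_finiteType.mp h1
    exact Algebra.FiniteType.isNoetherianRing ℤ (R0 s)
  refine InL.union (fun s => (Matrix.GeneralLinearGroup.map (n := Fin n)
    ((R0 s).val : R0 s →+* R)).range) ?_ ?_
  · intro s g hg
    refine GLR_mem n (R0 s) g ?_ ?_
    · intro i j
      refine Algebra.subset_adjoin ?_
      have : (g : Matrix (Fin n) (Fin n) R) i j ∈ E s := by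
        refine Finset.mem_biUnion.mpr ⟨g, hg, Finset.mem_union_left _ ?_⟩
        exact Finset.mem_image.mpr ⟨(i, j), Finset.mem_univ _, rfl⟩
      exact_mod_cast this
    · intro i j
      refine Algebra.subset_adjoin ?_
      have : ((g⁻¹ : GL (Fin n) R) : Matrix (Fin n) (Fin n) R) i j ∈ E s := by
        refine Finset.mem_biUnion.mpr ⟨g, hg, Finset.mem_union_right _ ?_⟩
        exact Finset.mem_image.mpr ⟨(i, j), Finset.mem_univ _, rfl⟩
      exact_mod_cast this
  · intro s
    have := hN s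
    let e := MonoidHom.ofInjective (GLR_map_injective n (R0 s))
    exact InL.sub e.symm.toMonoidHom e.symm.injective (h (R0 s) n)

end Pool.Agent.helper80.EN
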